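import Pool.Agent.U111.BGMain

set_option autoImplicit false

/-!
# Subgroups of the Baer-Specker group with the Borel gamma-property, under CH

Under the continuum hypothesis there is a subgroup `G` of `ℤ^ℕ` of cardinality continuum all of
whose finite powers satisfy `S₁(B_Ω, B_Γ)`; it also satisfies `S₁(Ω, Γ)`.
-/

namespace Pool.Agent.Results.MP_cc0654_lc.GammaGroupCH

open Set Filter Topology Cardinal
open Pool.Agent.U111.BGMain (T Fs GammaSel e)

/-- `𝒰` is an `ω`-cover of `X`: `X` is not a member, and every finite subset of `X` is contained in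
a member. -/
def IsOmegaCover {X : Type} (𝒰 : Set (Set X)) : Prop :=
  Set.univ ∉ 𝒰 ∧ ∀ F : Set X, F.Finite → ∃ U ∈ 𝒰, F ⊆ U

/-- `𝒰` is a `γ`-cover of `X`: it is infinite, and every point of `X` is in all but finitely many
members. -/
def IsGammaCover {X : Type} (𝒰 : Set (Set X)) : Prop :=
  𝒰.Infinite ∧ ∀ x : X, {U | U ∈ 𝒰 ∧ x ∉ U}.Finite

/-- `Ω`: the open `ω`-covers of `X`. -/
def Omega (X : Type) [TopologicalSpace X] : Set (Set (Set X)) :=
  {𝒰 | (∀ U ∈ 𝒰, IsOpen U) ∧ IsOmegaCover 𝒰}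

/-- `Γ`: the open `γ`-covers of `X`. -/
def Gamma (X : Type) [TopologicalSpace X] : Set (Set (Set X)) :=
  {𝒰 | (∀ U ∈ 𝒰, IsOpen U) ∧ IsGammaCover 𝒰}

/-- `B_Ω`: the countable `ω`-covers of `X` by Borel sets. -/
def BOmega (X : Type) [TopologicalSpace X] : Set (Set (Set X)) :=
  {𝒰 | 𝒰.Countable ∧ (∀ U ∈ 𝒰, @MeasurableSet X (borel X) U) ∧ IsOmegaCover 𝒰}

/-- `B_Γ`: the countable `γ`-covers of `X` by Borel sets. -/
def BGamma (X : Type) [TopologicalSpace X] : Set (Set (Set X)) :=
  {𝒰 | 𝒰.Countable ∧ (∀ U ∈ 𝒰, @MeasurableSet X (borel X) U) ∧ IsGammaCover 𝒰}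

/-- The selection principle `S₁(𝒜, ℬ)`. -/
def S1 {X : Type} (𝒜 ℬ : Set (Set (Set X))) : Prop :=
  ∀ 𝒰 : ℕ → Set (Set X), (∀ n, 𝒰 n ∈ 𝒜) →
    ∃ U : ℕ → Set X, (∀ n, U n ∈ 𝒰 n) ∧ Set.range U ∈ ℬ

theorem gamma_of_eventually {X : Type} (U : ℕ → Set X) (hne : ∀ n, U n ≠ Set.univ)
    (h : ∀ x, ∀ᶠ n in atTop, x ∈ U n) : IsGammaCover (Set.range U) := by
  refine ⟨fun hfin => ?_, fun x => ?_⟩
  · -- some member is repeated infinitely often
    obtain ⟨V, hV⟩ : ∃ V : Set.range U, (Set.rangeFactorization U ⁻¹' {V}).Infinite := by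
      have := hfin.to_subtype
      obtain ⟨V, hV⟩ := Finite.exists_infinite_fiber (Set.rangeFactorization U)
      exact ⟨V, Set.infinite_coe_iff.mp hV⟩
    obtain ⟨n0, _, hn0⟩ := hV.exists_gt 0
    have hn0' : ∃ n, Set.rangeFactorization U n = V := by
      obtain ⟨n, hn, _⟩ := hV.exists_gt 0
      exact ⟨n, hn⟩
    obtain ⟨n, hn⟩ := hn0'
    apply hne n
    rw [eq_univ_iff_forall]
    intro x
    obtain ⟨N, hN⟩ := eventually_atTop.mp (h x)
    obtain ⟨k, hk, hkN⟩ := hV.exists_gt N
    have h1 : U k = U n := by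
      have : Set.rangeFactorization U k = Set.rangeFactorization U n := by
        rw [hn]; exact hk
      exact congrArg Subtype.val this
    rw [← h1]
    exact hN k hkN.le
  · obtain ⟨N, hN⟩ := eventually_atTop.mp (h x)
    refine ((finite_lt_nat N).image U).subset ?_
    rintro _ ⟨⟨n, rfl⟩, hx⟩
    refine ⟨n, ?_, rfl⟩
    by_contra hn
    exact hx (hN n (not_lt.mp hn))

theorem s1_of {A : Set T} (hA : GammaSel A) {S : Type} [TopologicalSpace S] (j : S → T)
    (hj : IsInducing j) (hinj : Function.Injective j) {D : Set T} (hD : MeasurableSet D)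
    (hr : Set.range j = A ∩ D) : S1 (BOmega S) (BGamma S) := by
  classical
  intro 𝒰 h𝒰
  have hborel : borel S = (inferInstance : MeasurableSpace T).comap j := by
    have h1 : (inferInstance : MeasurableSpace T) = borel T := BorelSpace.measurable_eq
    rw [h1, hj.eq_induced, borel_comap]
  have henum : ∀ n, ∃ U : ℕ → Set S, Set.range U = 𝒰 n := by
    intro n
    obtain ⟨U, hU, _⟩ := (h𝒰 n).2.2.2 ∅ finite_empty
    obtain ⟨f, hf⟩ := (h𝒰 n).1.exists_eq_range ⟨U, hU⟩
    exact ⟨f, hf.symm⟩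
  choose U hU using henum
  have hUm : ∀ n m, U n m ∈ 𝒰 n := fun n m => by rw [← hU n]; exact ⟨m, rfl⟩
  have hB0 : ∀ n m, ∃ B : Set T, MeasurableSet B ∧ j ⁻¹' B = U n m := by
    intro n m
    have h1 := (h𝒰 n).2.1 _ (hUm n m)
    rw [hborel] at h1
    exact h1
  choose B0 hB0 hB0' using hB0
  obtain ⟨f, hf⟩ := hA (fun n m => B0 n m ∪ Dᶜ) (fun n m => (hB0 n m).union hD.compl) (by
    intro n F hF hFA
    obtain ⟨V, hV, hVF⟩ := (h𝒰 n).2.2.2 (j ⁻¹' F) (hF.preimage hinj.injOn)
    rw [← hU n] at hV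
    obtain ⟨m, rfl⟩ := hV
    refine ⟨m, fun x hx => ?_⟩
    by_cases hxD : x ∈ D
    · have : x ∈ Set.range j := by rw [hr]; exact ⟨hFA hx, hxD⟩
      obtain ⟨s, rfl⟩ := this
      have hs : s ∈ U n m := hVF hx
      rw [← hB0' n m] at hs
      exact Or.inl hs
    · exact Or.inr hxD)
  have hev : ∀ s : S, ∀ᶠ n in atTop, s ∈ U n (f n) := by
    intro s
    have hs : j s ∈ A ∩ D := by rw [← hr]; exact ⟨s, rfl⟩
    filter_upwards [hf _ hs.1] with n hn
    rw [← hB0' n (f n)]
    exact hn.resolve_right fun h => h hs.2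
  refine ⟨fun n => U n (f n), fun n => hUm n _, countable_range _, ?_, ?_⟩
  · rintro _ ⟨n, rfl⟩
    exact (h𝒰 n).2.1 _ (hUm n _)
  · refine gamma_of_eventually _ (fun n hn => ?_) hev
    apply (h𝒰 n).2.2.1
    rw [← hn]
    exact hUm n _

theorem open_of_borel {S : Type} [TopologicalSpace S] [SecondCountableTopology S]
    (h : S1 (BOmega S) (BGamma S)) : S1 (Omega S) (Gamma S) := by
  classical
  intro 𝒰 h𝒰
  have hsub : ∀ n, ∃ 𝒱 : Set (Set S), 𝒱 ⊆ 𝒰 n ∧ 𝒱 ∈ BOmega S := by
    intro n
    have hr : ∀ r : ℕ, ∃ 𝒱 : Set (Set S), 𝒱 ⊆ 𝒰 n ∧ 𝒱.Countable ∧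
        ∀ z : Fin r → S, ∃ U ∈ 𝒱, ∀ a, z a ∈ U := by
      intro r
      obtain ⟨c, hc, hc'⟩ := TopologicalSpace.isOpen_iUnion_countable
        (fun U : 𝒰 n => {z : Fin r → S | ∀ a, z a ∈ (U : Set S)}) (fun U => by
          have : {z : Fin r → S | ∀ a, z a ∈ (U : Set S)} =
              ⋂ a, (fun z : Fin r → S => z a) ⁻¹' (U : Set S) := by
            ext z; simp
          rw [this]
          exact isOpen_iInter_of_finite fun a =>
            ((h𝒰 n).1 _ U.2).preimage (continuous_apply a))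
      refine ⟨Subtype.val '' c, ?_, hc.image _, fun z => ?_⟩
      · rintro _ ⟨U, _, rfl⟩; exact U.2
      · obtain ⟨V, hV, hVz⟩ := (h𝒰 n).2.2 (Set.range z) (finite_range z)
        have hz : z ∈ ⋃ U : 𝒰 n, {z : Fin r → S | ∀ a, z a ∈ (U : Set S)} :=
          mem_iUnion.mpr ⟨⟨V, hV⟩, fun a => hVz ⟨a, rfl⟩⟩
        rw [← hc'] at hz
        simp only [mem_iUnion] at hz
        obtain ⟨U, hU, hUz⟩ := hz
        exact ⟨U, ⟨U, hU, rfl⟩, hUz⟩
    choose 𝒱 h1 h2 h3 using hr
    refine ⟨⋃ r, 𝒱 r, iUnion_subset h1, countable_iUnion h2, ?_, ?_, ?_⟩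
    · intro U hU
      obtain ⟨r, hr⟩ := mem_iUnion.mp hU
      exact MeasurableSpace.measurableSet_generateFrom ((h𝒰 n).1 _ (h1 r hr))
    · intro hu
      obtain ⟨r, hr⟩ := mem_iUnion.mp hu
      exact (h𝒰 n).2.1 (h1 r hr)
    · intro F hF
      have hFf := hF.fintype
      obtain ⟨U, hU, hUz⟩ := h3 (Fintype.card F) fun a => ((Fintype.equivFin F).symm a : S)
      refine ⟨U, mem_iUnion.mpr ⟨_, hU⟩, fun x hx => ?_⟩
      have := hUz (Fintype.equivFin F ⟨x, hx⟩)
      simpa using this
  choose 𝒱 h1 h2 using hsub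
  obtain ⟨U, hU, hU2⟩ := h 𝒱 h2
  refine ⟨U, fun n => h1 n (hU n), ?_, hU2.2.2⟩
  rintro _ ⟨n, rfl⟩
  exact (h𝒰 n).1 _ (h1 n (hU n))

/-- The embedding of a finite power of a subgroup in the space of sequences. -/
def emb (G : AddSubgroup (ℕ → ℤ)) (k : ℕ) (v : Fin k → G) : T :=
  fun i => if h : i < k then (v ⟨i, h⟩ : ℕ → ℤ) else 0

theorem inducing_emb (G : AddSubgroup (ℕ → ℤ)) (k : ℕ) : IsInducing (emb G k) := by
  have hc : Continuous (emb G k) := by
    refine continuous_pi fun i => ?_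
    by_cases h : i < k
    · have : (fun v : Fin k → G => emb G k v i) = fun v => (v ⟨i, h⟩ : ℕ → ℤ) := by
        funext v; simp only [emb, h, dite_true]
      rw [this]
      exact continuous_subtype_val.comp (continuous_apply _)
    · have : (fun v : Fin k → G => emb G k v i) = fun _ => 0 := by
        funext v; simp only [emb, h, dite_false]
      rw [this]
      exact continuous_const
  have hg : Continuous fun (v : T) (i : Fin k) => v i :=
    continuous_pi fun i => continuous_apply (i : ℕ)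
  refine IsInducing.of_comp hc hg ?_
  have : (fun (v : T) (i : Fin k) => v i) ∘ emb G k =
      Pi.map fun (_ : Fin k) (g : G) => (g : ℕ → ℤ) := by
    funext v i
    simp only [Function.comp, emb, i.2, dite_true, Pi.map]
  rw [this]
  exact IsInducing.piMap fun _ => IsInducing.subtypeVal

theorem measurable_zero_from (k : ℕ) : MeasurableSet {v : T | ∀ i, k ≤ i → v i = 0} := by
  have : {v : T | ∀ i, k ≤ i → v i = 0} = ⋂ i : ℕ, {v : T | k ≤ i → v i = 0} := by
    ext v; simp
  rw [this]
  refine MeasurableSet.iInter fun i => ?_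
  by_cases h : k ≤ i
  · have : {v : T | k ≤ i → v i = 0} = (fun v : T => v i) ⁻¹' {0} := by
      ext v; simp [h]
    rw [this]
    exact measurable_pi_apply i (measurableSet_singleton 0)
  · have : {v : T | k ≤ i → v i = 0} = Set.univ := by
      ext v; simp [h]
    rw [this]
    exact MeasurableSet.univ

/-- Under the continuum hypothesis there is a subgroup of `ℤ^ℕ` of cardinality continuum all of
whose finite powers satisfy `S₁(B_Ω, B_Γ)`, and which satisfies `S₁(Ω, Γ)`. -/
theorem result (CH : (𝔠 : Cardinal.{0}) = ℵ₁) :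
    ∃ G : AddSubgroup (ℕ → ℤ), #G = 𝔠 ∧ S1 (BOmega G) (BGamma G) ∧ S1 (Omega G) (Gamma G) ∧
      ∀ k : ℕ, S1 (BOmega (Fin k → G)) (BGamma (Fin k → G)) := by
  classical
  obtain ⟨X, hX, hsel⟩ := Pool.Agent.U111.BGMain.main CH
  let G : AddSubgroup (ℕ → ℤ) := AddSubgroup.closure (e '' X)
  have hpow : ∀ k : ℕ, S1 (BOmega (Fin k → G)) (BGamma (Fin k → G)) := by
    intro k
    refine s1_of hsel (emb G k) (inducing_emb G k) ?_ (measurable_zero_from k) ?_
    · intro v w hvw
      funext i
      have := congrFun hvw i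
      simp only [emb, i.2, dite_true] at this
      exact Subtype.ext this
    · ext v
      constructor
      · rintro ⟨u, rfl⟩
        have h0 : ∀ i, k ≤ i → emb G k u i = 0 := by
          intro i hi
          simp only [emb, not_lt.mpr hi, dite_false]
        refine ⟨⟨k, fun i hi => ?_, h0⟩, h0⟩
        simp only [emb, hi, dite_true]
        exact (u ⟨i, hi⟩).2
      · rintro ⟨⟨l, h1, h2⟩, h3⟩
        have hG : ∀ i, v i ∈ G := by
          intro i
          by_cases hi : i < l
          · exact h1 i hi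
          · rw [h2 i (not_lt.mp hi)]; exact zero_mem _
        refine ⟨fun i => ⟨v i, hG i⟩, ?_⟩
        funext i
        by_cases hi : i < k
        · simp only [emb, hi, dite_true]
        · simp only [emb, hi, dite_false]
          exact (h3 i (not_lt.mp hi)).symm
  have hone : S1 (BOmega G) (BGamma G) := by
    let c : G → (Fin 1 → G) := fun g _ => g
    have hcind : IsInducing c := by
      have hc : Continuous c := continuous_pi fun _ => continuous_id
      have hg : Continuous fun v : Fin 1 → G => v 0 := continuous_apply 0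
      exact IsInducing.of_comp hc hg IsInducing.id
    refine s1_of hsel (fun g => emb G 1 (c g)) ((inducing_emb G 1).comp hcind) ?_
      (measurable_zero_from 1) ?_
    · intro v w hvw
      have := congrFun hvw 0
      simp only [emb, c, zero_lt_one, dite_true] at this
      exact Subtype.ext this
    · ext v
      constructor
      · rintro ⟨u, rfl⟩
        have h0 : ∀ i, 1 ≤ i → emb G 1 (c u) i = 0 := by
          intro i hi
          simp only [emb, not_lt.mpr hi, dite_false]
        refine ⟨⟨1, fun i hi => ?_, h0⟩, h0⟩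
        simp only [emb, hi, dite_true]
        exact u.2
      · rintro ⟨⟨l, h1, h2⟩, h3⟩
        have hG : ∀ i, v i ∈ G := by
          intro i
          by_cases hi : i < l
          · exact h1 i hi
          · rw [h2 i (not_lt.mp hi)]; exact zero_mem _
        refine ⟨⟨v 0, hG 0⟩, ?_⟩
        funext i
        by_cases hi : i < 1
        · have : i = 0 := by omega
          subst this
          simp only [emb, c, zero_lt_one, dite_true]
        · simp only [emb, hi, dite_false]
          exact (h3 i (not_lt.mp hi)).symm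
  have hsc : SecondCountableTopology G :=
    inferInstanceAs (SecondCountableTopology {x // x ∈ (G : Set (ℕ → ℤ))})
  refine ⟨G, ?_, hone, open_of_borel hone, hpow⟩
  apply le_antisymm
  · calc #G ≤ #(ℕ → ℤ) := mk_subtype_le _
      _ = 𝔠 := by simp
  · rw [CH]
    by_contra hlt
    rw [not_le, lt_aleph_one_iff] at hlt
    apply hX
    have h1 : (G : Set (ℕ → ℤ)).Countable := le_aleph0_iff_set_countable.mp hlt
    have h2 : (e '' X).Countable := h1.mono AddSubgroup.subset_closure
    exact countable_of_injective_of_countable_image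
      (Pool.Agent.U111.BGMain.e_inj.injOn) h2

end Pool.Agent.Results.MP_cc0654_lc.GammaGroupCH
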